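import Mathlib
import Pool.Agent.H72.BSTree
import Pool.Agent.H72.TransAvoid

set_option autoImplicit false

namespace Pool.Agent.Results.MP_078bdc_al.GeneralType

open Filter

/-- some finite subset invariably generates `G` -/
def IsFIG (G : Type) [Group G] : Prop :=
  ∃ S : Set G, S.Finite ∧ ∀ c : G → G, Subgroup.closure ((fun s => (c s)⁻¹ * s * c s) '' S) = ⊤

def IsGeodesicSpace (X : Type) [MetricSpace X] : Prop :=
  ∀ p q : X, ∃ γ : ℝ → X, γ 0 = p ∧ γ (dist p q) = q ∧
    ∀ s ∈ Set.Icc (0 : ℝ) (dist p q), ∀ t ∈ Set.Icc (0 : ℝ) (dist p q), dist (γ s) (γ t) = |s - t|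

/-- Gromov product of `x` and `y` at `w` -/
noncomputable def gp {X : Type} [MetricSpace X] (x y w : X) : ℝ :=
  (dist x w + dist y w - dist x y) / 2

def IsGromovHyperbolic (X : Type) [MetricSpace X] : Prop :=
  ∃ δ : ℝ, 0 ≤ δ ∧ ∀ x y z w : X, min (gp x y w) (gp y z w) - δ ≤ gp x z w

/-- the Gromov products `(x i | y j)_o` tend to infinity -/
def Asymp {X : Type} [MetricSpace X] (o : X) (x y : ℕ → X) : Prop :=
  Tendsto (fun p : ℕ × ℕ => gp (x p.1) (y p.2) o) atTop atTop

def IsLoxodromic {G X : Type} [Group G] [MetricSpace X] [MulAction G X] (o : X) (g : G) : Prop :=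
  ∃ c : ℝ, 0 < c ∧ ∀ m n : ℤ, c * |(m : ℝ) - n| ≤ dist (g ^ m • o) (g ^ n • o)

/-- two loxodromic elements with no common fixed point on the Gromov boundary -/
def IsGeneralType (G X : Type) [Group G] [MetricSpace X] [MulAction G X] : Prop :=
  ∃ (o : X) (g h : G), IsLoxodromic o g ∧ IsLoxodromic o h ∧
    ∀ x : ℕ → X, Asymp o x x → ¬ (Asymp o (fun n => g • x n) x ∧ Asymp o (fun n => h • x n) x)

theorem fig_of_rel {G : Type} [Group G] (a t : G) (hgen : Subgroup.closure {a, t} = ⊤)
    (hrel : t * a ^ 2 * t⁻¹ = a ^ 3) : IsFIG G := by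
  have r : ∀ j : ℕ, t * a ^ (2 * j) * t⁻¹ = a ^ (3 * j) := by
    intro j
    rw [pow_mul, pow_mul, ← hrel, conj_pow]
  have comm : ∀ g : G, ∃ i j k l : ℕ, g * a ^ (2 ^ i * 3 ^ j) * g⁻¹ = a ^ (2 ^ k * 3 ^ l) := by
    intro g
    have hg : g ∈ Subgroup.closure {a, t} := hgen ▸ Subgroup.mem_top g
    induction hg using Subgroup.closure_induction with
    | mem x hx =>
      rcases hx with rfl | rfl
      · exact ⟨0, 0, 0, 0, by simp⟩
      · exact ⟨1, 0, 0, 1, by simpa using hrel⟩
    | one => exact ⟨0, 0, 0, 0, by simp⟩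
    | mul x y _ _ hx hy =>
      obtain ⟨i, j, k, l, h⟩ := hx
      obtain ⟨i', j', k', l', h'⟩ := hy
      refine ⟨i' + i, j' + j, k + k', l + l', ?_⟩
      have e1 : 2 ^ (i' + i) * 3 ^ (j' + j) = (2 ^ i' * 3 ^ j') * (2 ^ i * 3 ^ j) := by ring
      have e2 : 2 ^ (k + k') * 3 ^ (l + l') = (2 ^ k * 3 ^ l) * (2 ^ k' * 3 ^ l') := by ring
      rw [e1, e2]
      generalize 2 ^ i * 3 ^ j = p at h
      generalize 2 ^ k * 3 ^ l = q at h
      generalize 2 ^ i' * 3 ^ j' = p' at h'
      generalize 2 ^ k' * 3 ^ l' = q' at h'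
      rw [pow_mul, pow_mul, ← h, conj_pow, ← pow_mul a p, mul_comm p, pow_mul a q', ← h', conj_pow]
      group
    | inv x _ hx =>
      obtain ⟨i, j, k, l, h⟩ := hx
      exact ⟨k, l, i, j, by rw [← h]; group⟩
  have red : ∀ H : Subgroup G, t ∈ H → ∀ k l : ℕ, a ^ (2 ^ k * 3 ^ l) ∈ H → a ∈ H := by
    intro H ht
    have s2 : ∀ j : ℕ, a ^ (2 * j) ∈ H → a ^ j ∈ H := by
      intro j h
      have h1 : a ^ (3 * j) ∈ H := r j ▸ mul_mem (mul_mem ht h) (inv_mem ht)
      have : a ^ j = a ^ (3 * j) * (a ^ (2 * j))⁻¹ := by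
        rw [eq_mul_inv_iff_mul_eq, ← pow_add]; congr 1; ring
      rw [this]
      exact mul_mem h1 (inv_mem h)
    have s3 : ∀ j : ℕ, a ^ (3 * j) ∈ H → a ^ j ∈ H := by
      intro j h
      apply s2
      have : a ^ (2 * j) = t⁻¹ * a ^ (3 * j) * t := by rw [← r j]; group
      rw [this]
      exact mul_mem (mul_mem (inv_mem ht) h) ht
    intro k
    induction k with
    | zero =>
      intro l
      induction l with
      | zero => simp
      | succ l ih =>
        intro h
        apply ih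
        apply s3
        convert h using 2
        ring
    | succ k ih =>
      intro l h
      apply ih l
      apply s2
      convert h using 2
      ring
  refine ⟨{a, t}, Set.toFinite _, fun c => ?_⟩
  set H := Subgroup.closure ((fun s => (c s)⁻¹ * s * c s) '' {a, t}) with hH
  have ha : (c a)⁻¹ * a * c a ∈ H := Subgroup.subset_closure ⟨a, by simp, rfl⟩
  have ht : (c t)⁻¹ * t * c t ∈ H := Subgroup.subset_closure ⟨t, by simp, rfl⟩
  let K : Subgroup G := H.comap (MulAut.conj (c t)⁻¹).toMonoidHom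
  have hK : ∀ x, x ∈ K ↔ (c t)⁻¹ * x * c t ∈ H := by
    intro x
    simp [K]
  have htK : t ∈ K := (hK t).2 ht
  have h1 : (c t * (c a)⁻¹) * a * (c t * (c a)⁻¹)⁻¹ ∈ K := by
    rw [hK]
    convert ha using 1
    group
  obtain ⟨i, j, k, l, h⟩ := comm (c t * (c a)⁻¹)
  have h2 : a ^ (2 ^ k * 3 ^ l) ∈ K := by
    rw [← h, ← conj_pow]
    exact pow_mem h1 _
  have haK := red K htK k l h2
  have hKtop : K = ⊤ := by
    rw [eq_top_iff, ← hgen, Subgroup.closure_le]
    rintro x (rfl | rfl)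
    · exact haK
    · exact htK
  rw [eq_top_iff]
  intro x _
  have : c t * x * (c t)⁻¹ ∈ K := hKtop ▸ Subgroup.mem_top _
  rw [hK] at this
  convert this using 1
  group

open Pool.Agent.H72 Pool.Agent.H72.BSTree Pool.Agent.H72.Realize

def GG : Subgroup (Equiv.Perm W) := Subgroup.closure {al 1, pu true}

def aa : GG := ⟨al 1, Subgroup.subset_closure (by simp)⟩
def tt : GG := ⟨pu true, Subgroup.subset_closure (by simp)⟩

theorem gg_gen : Subgroup.closure {aa, tt} = ⊤ := by
  have := Subgroup.closure_closure_coe_preimage (k := ({al 1, pu true} : Set (Equiv.Perm W)))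
  refine eq_top_iff.2 (this.ge.trans (Subgroup.closure_mono ?_))
  rintro ⟨x, hx⟩ (rfl | rfl)
  · exact Or.inl rfl
  · exact Or.inr rfl

theorem gg_count : Countable GG := by
  have h := TransAvoid.mk_closure_le ({al 1, pu true} : Set (Equiv.Perm W))
  rw [max_eq_left (Set.toFinite _).lt_aleph0.le] at h
  exact Cardinal.mk_le_aleph0_iff.1 h

theorem gg_rel : tt * aa ^ 2 * tt⁻¹ = aa ^ 3 := by
  rw [mul_inv_eq_iff_eq_mul]
  apply Subtype.ext
  have h2 : al 1 ^ 2 = al 2 := by rw [pow_two, ← al_add]; rfl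
  have h3 : al 1 ^ 3 = al 3 := by rw [pow_succ, h2, ← al_add]; rfl
  simp only [Subgroup.coe_mul, SubgroupClass.coe_pow, aa, tt, h2, h3]
  exact bs_rel

theorem gg_dist (g : GG) (u v : W) : dist (g • u) (g • v) = dist u v := by
  obtain ⟨g, hg⟩ := g
  show dist (g u) (g v) = dist u v
  induction hg using Subgroup.closure_induction generalizing u v with
  | mem x hx =>
    rcases hx with rfl | rfl
    · exact al_dist _ _ _
    · exact pu_dist _ _ _
  | one => rfl
  | mul x y _ _ hx hy => rw [Equiv.Perm.mul_apply, Equiv.Perm.mul_apply, hx, hy]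
  | inv x _ hx => rw [← hx]; simp

instance : IsIsometricSMul GG W := ⟨fun g => Isometry.of_dist_eq (gg_dist g)⟩

instance : Fact ((0 : ℝ) < 1) := ⟨one_pos⟩

theorem t_pow (n : ℕ) : (tt ^ n • root).l = List.replicate n (true, 0) := by
  induction n with
  | zero => rfl
  | succ n ih =>
    rw [pow_succ', mul_smul]
    show push true (tt ^ n • root).l = _
    rw [ih, push, if_neg, List.replicate_succ]
    cases n <;> simp [List.replicate_succ]

theorem t_dist (m n : ℤ) : dist (tt ^ m • root) (tt ^ n • root) = |(m : ℝ) - n| := by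
  have key : ∀ m n : ℤ, n ≤ m → dist (tt ^ m • root) (tt ^ n • root) = (m : ℝ) - n := by
    intro m n h
    obtain ⟨k, rfl⟩ := Int.le.dest h
    rw [zpow_add, mul_smul, gg_dist, zpow_natCast, dist_root, t_pow]
    simp
  rcases le_total n m with h | h
  · rw [key m n h, abs_of_nonneg]
    exact sub_nonneg.2 (by exact_mod_cast h)
  · rw [dist_comm, key n m h, abs_sub_comm, abs_of_nonneg]
    exact sub_nonneg.2 (by exact_mod_cast h)

theorem gp_root (u v : W) : gp u v root = Lcp.lcp u.l v.l := by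
  simp only [gp, dist_root]
  simp only [dist_def, td]
  push_cast
  ring

theorem head_of (u : W) (h : 0 < gp (tt • u) u root) : ∃ e w, u.l = (e, 0) :: w := by
  rw [gp_root] at h
  have h' : 0 < Lcp.lcp (push true u.l) u.l := by exact_mod_cast h
  rcases push_cases true u.l u.h with ⟨_, h2⟩ | ⟨_, h2⟩
  · rw [h2] at h'
    cases hl : u.l with
    | nil => simp [hl] at h'
    | cons x w =>
      rw [hl, Lcp.lcp_cons] at h'
      by_cases e : (true, (0 : ℤ)) = x
      · exact ⟨true, w, by rw [e]⟩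
      · simp [e] at h'
  · exact ⟨_, _, h2⟩

theorem not_both (u : W) (h : 0 < gp (tt • u) u root)
    (h' : 0 < gp ((aa * tt * aa⁻¹) • u) u root) : False := by
  obtain ⟨e, w, hw⟩ := head_of u h
  have e1 : gp ((aa * tt * aa⁻¹) • u) u root = gp (tt • (aa⁻¹ • u)) (aa⁻¹ • u) root := by
    have hr : aa • root = root := rfl
    have hu : aa • (aa⁻¹ • u) = u := smul_inv_smul _ _
    simp only [gp, mul_smul]
    conv_lhs => rw [← hr, ← hu, inv_smul_smul]
    simp only [gg_dist]
  rw [e1] at h'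
  obtain ⟨e', w', hw'⟩ := head_of _ h'
  have : (aa⁻¹ • u).l = act (-1) u.l := rfl
  rw [this, hw] at hw'
  simp only [act, List.cons.injEq, Prod.mk.injEq] at hw'
  have := hw'.1.2
  cases e <;> simp [md] at this

theorem gp_near (g : GG) (x : Pt W 1) (u : W) (hu : dist x (ι 1 u) ≤ 1) :
    gp (g • x) x (ι 1 root) - 2 ≤ gp (g • u) u root := by
  have h1 : dist (g • x) (ι 1 (g • u)) ≤ 1 := by rw [← smul_ι, dist_smul]; exact hu
  have a1 := dist_triangle (g • x) (ι 1 (g • u)) (ι 1 root)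
  have a2 := dist_triangle x (ι 1 u) (ι 1 root)
  have a3 := dist_triangle4 (ι 1 (g • u)) (g • x) x (ι 1 u)
  rw [dist_comm (ι 1 (g • u)) (g • x)] at a3
  simp only [dist_ι, one_mul] at a1 a2 a3
  simp only [gp]
  linarith

theorem result : ∃ (G : Type) (_ : Group G) (X : Type) (_ : MetricSpace X) (_ : MulAction G X),
    Countable G ∧ IsFIG G ∧ IsIsometricSMul G X ∧ IsGeodesicSpace X ∧ IsGromovHyperbolic X ∧
      IsGeneralType G X := by
  refine ⟨GG, inferInstance, Pt W 1, inferInstance, inferInstance, gg_count,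
    fig_of_rel aa tt gg_gen gg_rel, inferInstance, geodesic nb ex_nb good, ?_, ?_⟩
  · obtain ⟨δ, h⟩ := hyper (ℓ := 1) BSTree.hyp
    refine ⟨max δ 0, le_max_right _ _, fun x y z w => ?_⟩
    have := h x y z w
    have := le_max_left δ 0
    simp only [gp]
    linarith
  · refine ⟨ι 1 root, tt, aa * tt * aa⁻¹, ⟨1, one_pos, fun m n => ?_⟩, ⟨1, one_pos, fun m n => ?_⟩,
      fun x _ h => ?_⟩
    · rw [smul_ι, smul_ι, dist_ι, t_dist]
    · have hr : aa⁻¹ • root = root := rfl
      rw [smul_ι, smul_ι, dist_ι, conj_zpow, conj_zpow, mul_smul, mul_smul, mul_smul, mul_smul,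
        gg_dist, hr, t_dist]
    · have diag : Tendsto (fun n : ℕ => (n, n)) atTop atTop := tendsto_atTop_diagonal
      have h1 := (h.1.comp diag).eventually_gt_atTop 2
      have h2 := (h.2.comp diag).eventually_gt_atTop 2
      obtain ⟨n, hn1, hn2⟩ := (h1.and h2).exists
      obtain ⟨u, hu⟩ := near_ι (x n)
      have b1 := gp_near tt (x n) u hu
      have b2 := gp_near (aa * tt * aa⁻¹) (x n) u hu
      simp only [Function.comp] at hn1 hn2
      exact not_both u (by linarith) (by linarith)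

end Pool.Agent.Results.MP_078bdc_al.GeneralType
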